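import Pool.Agent.HBD.Odd

set_option autoImplicit false

namespace Pool.Agent.Results.MP_b3b0a2_nt.SparseReduction

/-- The absolute logarithmic Weil height of the projective point (1 : a_1 : ... : a_n), for a
tuple of elements of the number field K (the same expression as in the frozen statement). -/
noncomputable def weilHeight (K : Type) [Field K] [NumberField K] {n : ℕ} (α : Fin n → K) : ℝ :=
  (1 / (Module.finrank ℚ K : ℝ)) *
        ((∑ w : NumberField.InfinitePlace K,
            (w.mult : ℝ) * Real.log (max 1 (⨆ i, w (α i)))) +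
         ∑ᶠ v : NumberField.FinitePlace K, Real.log (max 1 (⨆ i, v (α i))))

/-- (1) For every k there is c > 0 such that for every prime p, every n, every multiplicatively
independent n-tuple α and every integer polynomial F vanishing at α whose reduction mod p divides
a nonzero polynomial S over the field with p elements having at most k nonzero coefficients,
h(1 : α_1 : ... : α_n) ≥ c / max(deg F, deg S).
(2) For every n there is c > 0 with h(1 : α_1 : ... : α_n) ≥ c / D whenever F(α) = 0, deg F ≤ D,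
and all coefficients of F at monomials of degree at most D are congruent to one nonzero residue
modulo some prime p (for example all odd).
(3) The same with c / (D_1 + ... + D_n) for polynomials of degree at most D_i in the i-th variable
all of whose coefficients on the box are congruent to one nonzero residue modulo some prime. -/
theorem result :
    (∀ k : ℕ, ∃ c : ℝ, 0 < c ∧
      ∀ (p : ℕ), p.Prime →
      ∀ (n : ℕ) (K : Type) [Field K] [NumberField K] (α : Fin n → K),
        (∀ i, α i ≠ 0) →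
        (∀ e : Fin n → ℤ, ∏ i, α i ^ e i = 1 → e = 0) →
        ∀ (F : MvPolynomial (Fin n) ℤ) (S : MvPolynomial (Fin n) (ZMod p)),
          MvPolynomial.aeval α F = 0 →
          MvPolynomial.map (Int.castRingHom (ZMod p)) F ∣ S →
          S ≠ 0 → S.support.card ≤ k →
          c / ((max F.totalDegree S.totalDegree : ℕ) : ℝ) ≤ weilHeight K α) ∧
    (∀ n : ℕ, ∃ c : ℝ, 0 < c ∧
      ∀ (p : ℕ), p.Prime →
      ∀ (K : Type) [Field K] [NumberField K] (α : Fin n → K),
        (∀ i, α i ≠ 0) →
        (∀ e : Fin n → ℤ, ∏ i, α i ^ e i = 1 → e = 0) →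
        ∀ (F : MvPolynomial (Fin n) ℤ) (D : ℕ) (r : ZMod p), r ≠ 0 →
          MvPolynomial.aeval α F = 0 →
          F.totalDegree ≤ D →
          (∀ a : Fin n →₀ ℕ, ∑ i, a i ≤ D → ((F.coeff a : ℤ) : ZMod p) = r) →
          c / (D : ℝ) ≤ weilHeight K α) ∧
    (∀ n : ℕ, ∃ c : ℝ, 0 < c ∧
      ∀ (p : ℕ), p.Prime →
      ∀ (K : Type) [Field K] [NumberField K] (α : Fin n → K),
        (∀ i, α i ≠ 0) →
        (∀ e : Fin n → ℤ, ∏ i, α i ^ e i = 1 → e = 0) →
        ∀ (F : MvPolynomial (Fin n) ℤ) (D : Fin n → ℕ) (r : ZMod p), r ≠ 0 →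
          MvPolynomial.aeval α F = 0 →
          (∀ i, F.degreeOf i ≤ D i) →
          (∀ a : Fin n →₀ ℕ, (∀ i, a i ≤ D i) → ((F.coeff a : ℤ) : ZMod p) = r) →
          c / ((∑ i, D i : ℕ) : ℝ) ≤ weilHeight K α) := by
  have hh : ∀ (n : ℕ) (K : Type) [Field K] [NumberField K] (α : Fin n → K),
      weilHeight K α = Pool.Agent.HBD.wht K α := fun n K _ _ α => rfl
  have fin : ∀ (n : ℕ) (K : Type) [Field K] [NumberField K] (α : Fin n → K) (c : ℝ) (N : ℕ),
      c ≤ N * Pool.Agent.HBD.wht K α → c / (N : ℝ) ≤ weilHeight K α := by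
    intro n K _ _ α c N h
    rw [hh]
    rcases Nat.eq_zero_or_pos N with h9 | h9
    · rw [h9, Nat.cast_zero, div_zero]
      exact Pool.Agent.HBD.wht_nonneg α
    · rw [div_le_iff₀ (by exact_mod_cast h9)]
      linarith
  refine ⟨?_, ?_, ?_⟩
  · intro k
    obtain ⟨c, hc, h⟩ := Pool.Agent.HBD.uniform k
    refine ⟨c, hc, ?_⟩
    intro p hp n K _ _ α h1 h2 F S h3 h4 h5 h6
    exact fin n K α c _ (h p hp n K α ⟨h1, h2⟩ F S (max F.totalDegree S.totalDegree) h3 h4 h5 h6
      (le_max_left _ _) (le_max_right _ _))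
  · intro n
    obtain ⟨c, hc, h⟩ := Pool.Agent.HBD.simplex n
    refine ⟨c, hc, ?_⟩
    intro p hp K _ _ α h1 h2 F D r h3 h4 h5 h6
    exact fin n K α c D (h p hp K α ⟨h1, h2⟩ F D r h3 h4 h5 h6)
  · intro n
    obtain ⟨c, hc, h⟩ := Pool.Agent.HBD.box n
    refine ⟨c, hc, ?_⟩
    intro p hp K _ _ α h1 h2 F D r h3 h4 h5 h6
    exact fin n K α c _ (h p hp K α ⟨h1, h2⟩ F D r h3 h4 h5 h6)

end Pool.Agent.Results.MP_b3b0a2_nt.SparseReduction
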